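import Pool.Agent.T2h83.AM.Hv2

/-!
# Hooley's conjecture for almost all moduli `Q` in ALL the residue classes of almost all integers `m`, up to
# `m = X / (log X) ^ B`

For almost all integers `m` in every dyadic interval up to `X / (log X) ^ B`, and for ALL residue classes `b` modulo `m`
(there is no condition on `gcd(b, m)`), all but at most `X / (m (log X) ^ A)` of the integers `Q ≡ b (mod m)` with
`X / (log X) ^ K ≤ Q ≤ X` satisfy `|G(x, Q) - x log Q| ≤ ε x log Q` for ALL real `x` with `Q ≤ x ≤ Q (log X) ^ K`. For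
the largest `m` each class contains only about `(log X) ^ B` integers `Q ≤ X`.

Nothing is used besides Mathlib in the statement.

Proof: the large values of the exponential sum of the difference of the von Mangoldt function and a sieve model on the
translates `β + c / m` are counted for all `m` at once (large sieve on cells, Fejer kernels, `T2h83/AM`); this gives,
for almost all `m`, the correlations of the von Mangoldt function with the shifts `h Q` for all but few `Q` in ALL the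
classes modulo `m` and all small `h`; then `G(x, Q)` is computed as in `TH894/PV`, `R460/GQ`.
-/

set_option autoImplicit false

namespace Pool.Agent.Results.MP_5d318d_nt.AllClassesAlmostAllModuli

open Finset

/-- `ψ(x; Q, a) = ∑_{n ≤ x, n ≡ a mod Q} Λ(n)` for `0 ≤ a < Q` -/
noncomputable def psiAP (x : ℝ) (Q a : ℕ) : ℝ :=
  ∑ n ∈ (Icc 1 ⌊x⌋₊).filter (fun n => n % Q = a), ArithmeticFunction.vonMangoldt n

/-- The variance `G(x,Q) = ∑_{a mod Q, (a,Q)=1} (ψ(x;Q,a) - x/φ(Q))²`. -/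
noncomputable def G (x : ℝ) (Q : ℕ) : ℝ :=
  ∑ a ∈ (range Q).filter (fun a => Nat.Coprime a Q), (psiAP x Q a - x / (Nat.totient Q : ℝ)) ^ 2

/-- `|G(x,Q) - x log Q| ≤ ε x log Q` for ALL real `x` with `Q ≤ x ≤ Q R`. -/
def Good (ε R : ℝ) (Q : ℕ) : Prop :=
  ∀ x : ℝ, (Q : ℝ) ≤ x → x ≤ Q * R → |G x Q - x * Real.log Q| ≤ ε * (x * Real.log Q)

/-- The integers `Q ≡ b (mod m)` with `X / (log X)^K ≤ Q ≤ X` for which `Good ε ((log X)^K) Q` is false. -/
def exceptional (ε : ℝ) (K : ℕ) (X : ℝ) (m : ℕ) (b : ℤ) : Set ℕ :=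
  {Q : ℕ | 0 < Q ∧ (Q : ℝ) ≤ X ∧ X ≤ Q * Real.log X ^ K ∧ (Q : ℤ) ≡ b [ZMOD m] ∧ ¬ Good ε (Real.log X ^ K) Q}

/-- For all `ε > 0`, `A` and `K` there is a `B` such that for all sufficiently large real `X` and all `M` with
`M (log X)^B ≤ X`: for all the integers `M < m ≤ 2 M`, except for at most `M / (log X)^A` of them, and for EVERY integer
`b`, all but at most `X / (m (log X)^A)` of the integers `Q ≡ b (mod m)` with `X / (log X)^K ≤ Q ≤ X` satisfy
`Good ε ((log X)^K) Q`. -/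
theorem result (ε : ℝ) (hε : 0 < ε) (A K : ℕ) :
    ∃ (B : ℕ) (X₀ : ℝ), ∀ X : ℝ, X₀ ≤ X → ∀ M : ℕ, (M : ℝ) * Real.log X ^ B ≤ X →
      ∃ S : Finset ℕ, (S.card : ℝ) ≤ M / Real.log X ^ A ∧ ∀ m ∈ Ioc M (2 * M), m ∉ S → ∀ b : ℤ,
        (exceptional ε K X m b).Finite ∧ ((exceptional ε K X m b).ncard : ℝ) ≤ X / (m * Real.log X ^ A) := by
  classical
  obtain ⟨ε', hε'⟩ : ∃ ε', ε' = min ε 1 := ⟨_, rfl⟩
  have hε0 : 0 < ε' := by rw [hε']; exact lt_min hε one_pos
  have hε1 : ε' ≤ 1 := by rw [hε']; exact min_le_right _ _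
  have hεε : ε' ≤ ε := by rw [hε']; exact min_le_left _ _
  obtain ⟨B, Y₀, h0⟩ := Pool.Agent.T2h83.AM.var_A ε' hε0 hε1 (A + 1) (K + 1)
  refine ⟨B + 1, max (max (Real.exp (100 + 2 ^ B)) Y₀) 4, fun x hx M hM => ?_⟩
  have hxe : Real.exp (100 + 2 ^ B) ≤ x := (le_max_left _ _).trans ((le_max_left _ _).trans hx)
  have hxX₀ : (Y₀ : ℝ) ≤ x := (le_max_right _ _).trans ((le_max_left _ _).trans hx)
  have hx4 : 4 ≤ x := (le_max_right _ _).trans hx
  have hx0 : 0 < x := by linarith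
  have h2B : (0 : ℝ) < 2 ^ B := by positivity
  have hL' : 100 + 2 ^ B ≤ Real.log x := by
    rw [Real.le_log_iff_exp_le hx0]
    exact hxe
  have hL : 100 ≤ Real.log x := by linarith
  obtain ⟨X, hX⟩ : ∃ X, X = ⌈x⌉₊ := ⟨_, rfl⟩
  have hxX : x ≤ X := by rw [hX]; exact Nat.le_ceil x
  have hXx : (X : ℝ) ≤ x + 1 := by rw [hX]; exact (Nat.ceil_lt_add_one hx0.le).le
  have hX2 : (X : ℝ) ≤ 2 * x := by linarith
  have hXX₀ : Y₀ ≤ X := by exact_mod_cast hxX₀.trans hxX
  have hX0 : (0 : ℝ) < X := by linarith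
  have hLX : Real.log x ≤ Real.log X := Real.log_le_log hx0 hxX
  have hLX2 : Real.log X ≤ 2 * Real.log x := by
    have h1 : Real.log X ≤ Real.log (2 * x) := Real.log_le_log hX0 hX2
    rw [Real.log_mul (by norm_num) hx0.ne'] at h1
    have := Real.log_two_lt_d9
    linarith
  obtain ⟨l, hl⟩ : ∃ l, l = Real.log x := ⟨_, rfl⟩
  obtain ⟨L, hLd⟩ : ∃ L, L = Real.log (X : ℝ) := ⟨_, rfl⟩
  have hmain := h0 X hXX₀ M
  rw [← hl] at hL hLX hLX2 hL' hM ⊢
  rw [← hLd] at hLX hLX2 hmain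
  have hl0 : 0 < l := by linarith
  have hl1 : 1 ≤ l := by linarith
  have hL0 : 0 < L := by linarith
  obtain ⟨S, hS1, hS2⟩ := hmain (by
    refine le_trans ?_ (hM.trans hxX)
    apply mul_le_mul_of_nonneg_left _ (Nat.cast_nonneg _)
    calc L ^ B ≤ (2 * l) ^ B := pow_le_pow_left₀ hL0.le hLX2 _
      _ = 2 ^ B * l ^ B := mul_pow _ _ _
      _ ≤ l * l ^ B := mul_le_mul_of_nonneg_right (by linarith) (by positivity)
      _ = l ^ (B + 1) := by ring)
  refine ⟨S, ?_, fun m hmM hmS b => ?_⟩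
  · refine hS1.trans ?_
    apply div_le_div_of_nonneg_left (Nat.cast_nonneg _) (by positivity)
    exact (pow_le_pow_right₀ hl1 (by omega)).trans (pow_le_pow_left₀ hl0.le hLX _)
  have hm1 : 1 ≤ m := by rw [mem_Ioc] at hmM; omega
  have hm0 : (0 : ℝ) < m := by exact_mod_cast hm1
  have hmain := hS2 m hmM hmS (b % (m : ℤ)).toNat
  have hK : 2 * l ^ K ≤ L ^ (K + 1) := by
    calc 2 * l ^ K ≤ L * L ^ K :=
          mul_le_mul (by linarith) (pow_le_pow_left₀ hl0.le hLX _) (by positivity) hL0.le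
      _ = L ^ (K + 1) := by ring
  have hsub : exceptional ε K x m b ⊆
      ((Pool.Agent.R460.GQ.badV (K + 1) ε' X m (b % (m : ℤ)).toNat : Finset ℕ) : Set ℕ) := by
    rintro Q ⟨d1, d2, d3, d4, d5⟩
    rw [mem_coe]
    unfold Pool.Agent.R460.GQ.badV
    rw [mem_filter, mem_Icc, ← hLd]
    rw [← hl] at d3 d5
    have hQ0 : (0 : ℝ) < Q := by exact_mod_cast d1
    have hQ1 : (1 : ℝ) ≤ Q := by exact_mod_cast d1
    unfold Good at d5
    push Not at d5
    obtain ⟨y, y1, y2, y3⟩ := d5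
    refine ⟨⟨d1, ?_⟩, Pool.Agent.R460.GS.mod_iff' Q m b hm1 d4, ?_, y, y1, ?_, ?_⟩
    · exact_mod_cast d2.trans hxX
    · calc (X : ℝ) ≤ 2 * x := hX2
        _ ≤ 2 * (Q * l ^ K) := by linarith
        _ = Q * (2 * l ^ K) := by ring
        _ ≤ Q * L ^ (K + 1) := mul_le_mul_of_nonneg_left hK hQ0.le
    · refine y2.trans (mul_le_mul_of_nonneg_left (le_trans ?_ hK) hQ0.le)
      have : 0 < l ^ K := by positivity
      linarith
    · have hlog : 0 ≤ y * Real.log Q := mul_nonneg (by linarith) (Real.log_nonneg hQ1)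
      exact lt_of_le_of_lt (mul_le_mul_of_nonneg_right hεε hlog) y3
  refine ⟨(finite_toSet _).subset hsub, ?_⟩
  have hc : ((exceptional ε K x m b).ncard : ℝ) ≤
      ((Pool.Agent.R460.GQ.badV (K + 1) ε' X m (b % (m : ℤ)).toNat).card : ℝ) := by
    have := Set.ncard_le_ncard hsub (finite_toSet _)
    rw [Set.ncard_coe_finset] at this
    exact_mod_cast this
  refine hc.trans (hmain.trans ?_)
  rw [div_le_div_iff₀ (by positivity) (by positivity)]
  have k5 : l ^ (A + 1) ≤ L ^ (A + 1) := pow_le_pow_left₀ hl0.le hLX _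
  calc (X : ℝ) * (m * l ^ A) ≤ (2 * x) * (m * l ^ A) := mul_le_mul_of_nonneg_right hX2 (by positivity)
    _ ≤ x * (m * (l * l ^ A)) := by
        have k3 : 2 ≤ l := by linarith
        have k4 : 0 ≤ x * (m * l ^ A) := by positivity
        nlinarith
    _ = x * (m * l ^ (A + 1)) := by ring
    _ ≤ x * (m * L ^ (A + 1)) := by gcongr

end Pool.Agent.Results.MP_5d318d_nt.AllClassesAlmostAllModuli
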