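import Pool.Agent.T2h84.LD.Fin

/-!
# Large deviations of the variance of primes in progressions from below

Let `G(x,k;y) = ∑_{a mod k, (a,k)=1} (ψ(x;k,a) - y)²`; for `y = x/φ(k)` this is Hooley's `G(x,k)`.
For every `ε > 0` there is `κ > 0` such that

* for large `X`, all `K ≤ X` and all real `c` with `X^(1+c) ≤ K²`: for all but at most
  `X^(1+c-κ)/K` of the moduli `k` in `(K,2K]`, `G(x,k;y) ≥ (c-ε) x log x` for every `x` in `[X,2X]`
  and every centre `y`;
* for large `K`, all but at most `K^(1-κ)` of the moduli `k` in `(K,2K]` satisfy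
  `G(x,k;y) ≥ x (2 log k - log x - ε log x)` for every `x ≥ k` and every centre `y`.

Proof.  The test function `T(n) = ∑_{P < q ≤ R} μ(q) c_q(n) / φ(q)` has mean square
`(1+o(1)) ∑_{P < q ≤ R} μ(q)²/φ(q) ~ log(R/P)` for all `R ≤ X^(1-ε)` (also beyond `√X`), and
correlation `~ X log(R/P)` with `Λ`.  Its exponential sum is `≤ (X/P + R) X^ε` at every real
frequency, since the frequencies with denominators at most `P` are absent.  Therefore the
correlations of `T` with `Λ` and with itself along the multiples of `k` are small for all `k` outside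
a small set, uniformly in the length of the interval, and the inequality of Cauchy and Schwarz gives
the lower bound `X log(R/P)`.
-/

set_option autoImplicit false

open Finset

namespace Pool.Agent.Results.MP_5d318d_nt.LargeDeviations

/-- `G(x,k;y) = ∑_{a mod k, (a,k)=1} (ψ(x;k,a) - y)²`, where
`ψ(x;k,a) = ∑_{n ≤ x, n ≡ a mod k} Λ(n)` -/
noncomputable def G (x : ℝ) (k : ℕ) (y : ℝ) : ℝ :=
  ∑ a ∈ (range k).filter (fun a => Nat.Coprime a k),
    ((∑ n ∈ (Icc 1 ⌊x⌋₊).filter (fun n => n % k = a), ArithmeticFunction.vonMangoldt n) - y) ^ 2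

open Classical in
/-- For every `ε > 0` there is `κ > 0` such that, for large `X`, all `K ≤ X` and all real `c` with
`X^(1+c) ≤ K²`, all but at most `X^(1+c-κ)/K` integers `k` in `(K,2K]` satisfy
`G(x,k;y) ≥ (c-ε) x log x` for all `x` in `[X,2X]` and all `y`; and, for large `K`, all but at most
`K^(1-κ)` integers `k` in `(K,2K]` satisfy `G(x,k;y) ≥ x (2 log k - log x - ε log x)` for all
`x ≥ k` and all `y`. -/
theorem result : ∀ ε : ℝ, 0 < ε → ∃ κ : ℝ, 0 < κ ∧
    (∃ X₀ : ℝ, ∀ X : ℝ, X₀ ≤ X → ∀ K : ℕ, 1 ≤ K → (K : ℝ) ≤ X → ∀ c : ℝ, X ^ (1 + c) ≤ (K : ℝ) ^ 2 →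
      (((Ioc K (2 * K)).filter (fun k => ∃ x y : ℝ, X ≤ x ∧ x ≤ 2 * X ∧
        G x k y < (c - ε) * x * Real.log x)).card : ℝ) ≤ X ^ (1 + c - κ) / K) ∧
    (∃ K₀ : ℝ, ∀ K : ℕ, K₀ ≤ K →
      (((Ioc K (2 * K)).filter (fun k : ℕ => ∃ x y : ℝ, (k : ℝ) ≤ x ∧
        G x k y < x * (2 * Real.log k - Real.log x - ε * Real.log x))).card : ℝ) ≤
        (K : ℝ) ^ (1 - κ)) := by
  intro ε hε
  obtain ⟨κ₁, hκ₁, X₀, h1⟩ := Pool.Agent.T2h84.LD.main1 ε hε
  obtain ⟨κ₂, hκ₂, K₀, h2⟩ := Pool.Agent.T2h84.LD.main2 ε hε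
  refine ⟨min κ₁ κ₂, lt_min hκ₁ hκ₂, ⟨max X₀ 1, fun X hX K hK hKX c hc => ?_⟩,
    ⟨max K₀ 1, fun K hK => ?_⟩⟩
  · refine (h1 X ((le_max_left _ _).trans hX) K hK hKX c hc).trans ?_
    apply div_le_div_of_nonneg_right _ (Nat.cast_nonneg K)
    apply Real.rpow_le_rpow_of_exponent_le ((le_max_right _ _).trans hX)
    have := min_le_left κ₁ κ₂
    linarith
  · refine (h2 K ((le_max_left _ _).trans hK)).trans ?_
    apply Real.rpow_le_rpow_of_exponent_le ((le_max_right _ _).trans hK)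
    have := min_le_right κ₁ κ₂
    linarith

end Pool.Agent.Results.MP_5d318d_nt.LargeDeviations
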