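import Pool.Agent.T2h81.HV.V3

set_option autoImplicit false

/-!
# The variance of primes in short intervals and short runs of reduced classes, for EVERY modulus

Hooley's conjecture says that `G(X, Q) = ∑ (ψ(X; Q, a) - X / φ(Q))²`, the sum over all reduced classes `a` modulo `Q`, is
asymptotic to `X log Q`; thus one expects the mean `(X / φ(Q)) log Q` of the squares. Here the classes are restricted
to short intervals and short runs. There is an absolute constant `C` such that, with `θ = exp (-exp (C lam / η))`, for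
all `0 < η ≤ 1`, `lam ≥ 1` and for EVERY modulus `Q ≥ Q₀(η, lam)`:

(1) Let `(M, M + N]` be an interval of classes with `N ≥ Q ^ η` and `1 / θ ≤ m ≤ Q ^ (η / 2)`. For all but at most
`exp (-lam / η) (φ(Q) / Q) N` of the `n` of this interval which are prime to `Q`, the sum of `(ψ(X; Q, r) - y)²` over
the first `m` reduced residues `r` after `n` is at least `θ m y²`, for ALL real `X ≤ lam φ(Q) log Q` and ALL centres `y`
simultaneously.

(2) For every interval `(M, M + N]`, `N ≥ Q ^ η`, and all `X ≤ lam φ(Q) log Q` and `y` the sum of `(ψ(X; Q, a) - y)²`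
over the reduced classes `a` of the interval is at least `θ (φ(Q) / Q) N y²`.

For `y = X / φ(Q)` and `κ φ(Q) log Q ≤ X ≤ lam φ(Q) log Q` the lower bounds have the order
`m X log Q / φ(Q)` and `(N / Q) X log Q` predicted by Hooley's conjecture on average. In this range of `X` a lower bound
of the right order for all classes together (`M = 0`, `N = Q`) is known by a theorem of Friedlander and Goldston; their
method needs all classes.

Proof: the theorem on late classes in short runs of reduced residues (`MP_458f0b_nt.LateClassesEverywhere`, here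
`T2h81.UC`), which rests on the hypergraph covering theorem of the library, a bound for the number of the classes in a
short interval which contain proper prime powers, and counting along the runs.
-/

namespace Pool.Agent.Results.MP_5d318d_nt.LocalVariance

open Finset

/-- `ψ(X; Q, a)`, the sum of `Λ(n)` over the positive integers `n ≤ X` with `n ≡ a (mod Q)` -/
noncomputable def psi (X : ℝ) (Q a : ℕ) : ℝ :=
  ∑ n ∈ (Icc 1 ⌊X⌋₊).filter (fun n => n ≡ a [MOD Q]), ArithmeticFunction.vonMangoldt n

/-- the number `j` (from `j = 0`) of the integers larger than `n` and prime to `Q`, in increasing order -/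
noncomputable def red (Q n j : ℕ) : ℕ := Nat.nth (fun a => n < a ∧ a.Coprime Q) j

/-- sums of squares with many zeros -/
lemma sum_ge {ι : Type} (s t : Finset ι) (hts : t ⊆ s) (f : ι → ℝ) (y : ℝ) (hf : ∀ i ∈ t, f i = 0) :
    (t.card : ℝ) * y ^ 2 ≤ ∑ i ∈ s, (f i - y) ^ 2 := by
  calc (t.card : ℝ) * y ^ 2 = ∑ i ∈ t, (f i - y) ^ 2 := by
        rw [← nsmul_eq_mul, ← Finset.sum_const]
        apply Finset.sum_congr rfl
        intro i hi
        rw [hf i hi]
        ring
    _ ≤ _ := Finset.sum_le_sum_of_subset_of_nonneg hts fun _ _ _ => sq_nonneg _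

theorem result : ∃ C : ℝ, 1 ≤ C ∧ ∀ η lam : ℝ, 0 < η → η ≤ 1 → 1 ≤ lam →
    ∃ Q₀ : ℕ, ∀ Q : ℕ, Q₀ ≤ Q → ∀ M N : ℕ, M + N ≤ Q → (Q : ℝ) ^ η ≤ N →
      (∀ m : ℕ, Real.exp (Real.exp (C * lam / η)) ≤ m → (m : ℝ) ≤ (Q : ℝ) ^ (η / 2) →
        ({n : ℕ | M < n ∧ n ≤ M + N ∧ n.Coprime Q ∧
          ∃ X y : ℝ, X ≤ lam * Q.totient * Real.log Q ∧
            ∑ j ∈ range m, (psi X Q (red Q n j) - y) ^ 2 <
              Real.exp (-Real.exp (C * lam / η)) * m * y ^ 2}.ncard : ℝ) ≤
          Real.exp (-(lam / η)) * (((Q.totient : ℝ) / Q) * N)) ∧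
      (∀ X y : ℝ, X ≤ lam * Q.totient * Real.log Q →
        Real.exp (-Real.exp (C * lam / η)) * (((Q.totient : ℝ) / Q) * N) * y ^ 2 ≤
          ∑ a ∈ (Ioc M (M + N)).filter (fun a => a.Coprime Q), (psi X Q a - y) ^ 2) := by
  classical
  obtain ⟨C, hC, h⟩ := Pool.Agent.T2h81.HV.main_runs
  refine ⟨C, hC, fun η lam hη hη1 hlam => ?_⟩
  obtain ⟨Q₀, hQ₀⟩ := h η lam hη hη1 hlam
  refine ⟨Q₀, fun Q hQ M N hMN hN => ?_⟩
  obtain ⟨h1, h2⟩ := hQ₀ Q hQ M N hMN hN
  constructor
  · intro m hm1 hm2
    refine le_trans ?_ (h1 m hm1 hm2)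
    rw [Nat.cast_le, ← Set.ncard_coe_finset]
    apply Set.ncard_le_ncard
    · rintro n ⟨hn1, hn2, hn3, X, y, hX, hXy⟩
      rw [Finset.mem_coe, Finset.mem_filter]
      refine ⟨?_, ?_⟩
      · unfold Pool.Agent.T2h81.HV.RR
        rw [Finset.mem_filter, Finset.mem_Ioc]
        exact ⟨⟨hn1, hn2⟩, hn3⟩
      · by_contra hcon
        push Not at hcon
        have h3 := sum_ge (range m) ((range m).filter (fun j => Pool.Agent.T2h81.HV.NoPP Q
          (lam * Q.totient * Real.log Q) (Pool.Agent.T2h81.UC.rr Q n j))) (Finset.filter_subset _ _)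
          (fun j => psi X Q (red Q n j)) y (by
            intro j hj
            exact Pool.Agent.T2h81.HV.psi_zero Q _ _ X hX (Finset.mem_filter.1 hj).2)
        have h4 := mul_le_mul_of_nonneg_right hcon (sq_nonneg y)
        linarith
    · exact Finset.finite_toSet _
  · intro X y hX
    have h3 := sum_ge ((Ioc M (M + N)).filter (fun a => a.Coprime Q))
      ((Pool.Agent.T2h81.HV.RR Q M N).filter
        (Pool.Agent.T2h81.HV.NoPP Q (lam * Q.totient * Real.log Q))) (Finset.filter_subset _ _)
      (fun a => psi X Q a) y (by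
        intro a ha
        exact Pool.Agent.T2h81.HV.psi_zero Q _ _ X hX (Finset.mem_filter.1 ha).2)
    exact (mul_le_mul_of_nonneg_right h2 (sq_nonneg y)).trans h3

end Pool.Agent.Results.MP_5d318d_nt.LocalVariance
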