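import Pool.Agent.T2h81.HV.V5

set_option autoImplicit false

/-!
# The variance of primes over sets of classes modulo a prime: dilates of arbitrary sets, cosets, Fourier criterion

Hooley's conjecture predicts the mean `(X / φ(Q)) log Q` of the squares `(ψ(X; Q, a) - X / φ(Q))²` over ALL reduced
classes `a` modulo `Q`. Here `Q = P` is a prime and the classes are restricted to thin sets and families. We call the
variance over the family `v_i`, `i ∈ s`, large if `∑_i (ψ(X; P, v_i) - y)² ≥ |s| exp (-exp (C lam)) y²` for ALL real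
`X ≤ lam P log P` and ALL real centres `y` (`Large`); for `y = X / φ(P)` and `κ P log P ≤ X ≤ lam P log P` this is at
least `exp (-exp (C lam)) κ` times the conjectured mean order `|s| (X / φ(P)) log P`. For every `0 < ε ≤ 1` there are
`C` and `P₀` such that for all primes `P ≥ P₀` and all `1 ≤ lam ≤ (log log P) / C`:

(0) The variance is large over every finite family in which no class occurs more than `|s| P ^ (-1/2 - ε)` times and
whose Fourier coefficients at the nonzero frequencies are at most `|s| P ^ (-ε)`.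

(1) For EVERY set `B` of at least `P ^ (1/2 + ε)` classes and any function `g` the variance is large over the image
`a B + g(a)` for all but at most `P ^ (1 + ε) / |B|` of the `a ≠ 0`. For pure dilates `a B` (`g = 0`) this holds for
every nonempty set `B` of nonzero classes.

(2) The variance is large over every coset of every subgroup of the multiplicative group of order at least
`P ^ (1/2 + ε)`.

For the set of all classes a lower bound of the right order is known (Friedlander and Goldston), by a method which needs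
all the classes; in (0), (1) and (2) the sets are thin.

Proof: the Fourier criterion for late classes (`MP_458f0b_nt.LateClassesInFamilies`, here `T2h81.LD.fam`: completion over
the least residues and the hypergraph covering theorem of the library for the progressions `v + k P`), and a count of the
classes which contain proper prime powers.
-/

namespace Pool.Agent.Results.MP_5d318d_nt.VarianceOverSets

open Finset

/-- `ψ(X; P, a)`, the sum of `Λ(n)` over the positive integers `n ≤ X` in the class `a` modulo `P` -/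
noncomputable def psi (X : ℝ) {P : ℕ} (a : ZMod P) : ℝ :=
  ∑ n ∈ (Icc 1 ⌊X⌋₊).filter (fun n : ℕ => (n : ZMod P) = a), ArithmeticFunction.vonMangoldt n

/-- The variance over the family `v_i`, `i ∈ s`, is large: for all real `X ≤ lam P log P` and all real `y` the sum of
`(ψ(X; P, v_i) - y)²` over the `i ∈ s` is at least `|s| exp (-exp (C lam)) y²`. -/
def Large (C lam : ℝ) {P : ℕ} {ι : Type} (s : Finset ι) (v : ι → ZMod P) : Prop :=
  ∀ X y : ℝ, X ≤ lam * P * Real.log P →
    s.card * Real.exp (-Real.exp (C * lam)) * y ^ 2 ≤ ∑ i ∈ s, (psi X (v i) - y) ^ 2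

lemma psi_zero (P : ℕ) (a : ZMod P) (Z X : ℝ) (hX : X ≤ Z) (h : Pool.Agent.T2h81.HV.NoPPc P Z a) :
    psi X a = 0 := by
  classical
  unfold psi
  apply Finset.sum_eq_zero
  intro n hn
  rw [Finset.mem_filter, Finset.mem_Icc] at hn
  rw [ArithmeticFunction.vonMangoldt_eq_zero_iff]
  refine h n ?_ hn.2
  have h1 : 1 ≤ ⌊X⌋₊ := by omega
  have hX0 : 0 ≤ X := by
    by_contra hcon
    push Not at hcon
    rw [Nat.floor_of_nonpos hcon.le] at h1
    omega
  exact ((Nat.le_floor_iff hX0).1 hn.1.2).trans hX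

/-- many classes without small prime powers make the variance large -/
lemma large_of (C C' lam : ℝ) (hCC : C' ≤ C) (hlam : 0 ≤ lam) {P : ℕ} {ι : Type} (s : Finset ι)
    (v : ι → ZMod P) [DecidablePred fun i =>
      Pool.Agent.T2h81.HV.NoPPc P (lam * P * Real.log P) (v i)]
    (h : (s.card : ℝ) * Real.exp (-Real.exp (C' * lam)) ≤
      ((s.filter (fun i => Pool.Agent.T2h81.HV.NoPPc P (lam * P * Real.log P) (v i))).card : ℝ)) :
    Large C lam s v := by
  intro X y hX
  have h1 : Real.exp (-Real.exp (C * lam)) ≤ Real.exp (-Real.exp (C' * lam)) := by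
    apply Real.exp_le_exp.2
    apply neg_le_neg
    apply Real.exp_le_exp.2
    exact mul_le_mul_of_nonneg_right hCC hlam
  have h2 : (s.card : ℝ) * Real.exp (-Real.exp (C * lam)) ≤
      ((s.filter (fun i => Pool.Agent.T2h81.HV.NoPPc P (lam * P * Real.log P) (v i))).card : ℝ) :=
    (mul_le_mul_of_nonneg_left h1 (Nat.cast_nonneg _)).trans h
  refine (mul_le_mul_of_nonneg_right h2 (sq_nonneg y)).trans ?_
  calc ((s.filter (fun i => Pool.Agent.T2h81.HV.NoPPc P (lam * P * Real.log P) (v i))).card : ℝ) *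
        y ^ 2 = ∑ i ∈ s.filter (fun i =>
          Pool.Agent.T2h81.HV.NoPPc P (lam * P * Real.log P) (v i)), (psi X (v i) - y) ^ 2 := by
        rw [← nsmul_eq_mul, ← Finset.sum_const]
        apply Finset.sum_congr rfl
        intro i hi
        rw [psi_zero P (v i) _ X hX (Finset.mem_filter.1 hi).2]
        ring
    _ ≤ _ := Finset.sum_le_sum_of_subset_of_nonneg (Finset.filter_subset _ _)
        fun _ _ _ => sq_nonneg _

lemma exp_le_log (C C' Z lam : ℝ) (hC : 0 < C) (hCC : C' ≤ C) (hlam : 0 ≤ lam) (hZ : 2 ≤ Z)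
    (h : lam ≤ Real.log (Real.log Z) / C) : Real.exp (C' * lam) ≤ Real.log Z := by
  have hlog : 0 < Real.log Z := Real.log_pos (by linarith)
  rw [le_div_iff₀ hC] at h
  rw [← Real.exp_log hlog]
  apply Real.exp_le_exp.2
  have := mul_le_mul_of_nonneg_right hCC hlam
  linarith

/-- **The variance of primes over thin sets of classes modulo a prime.** -/
theorem result (ε : ℝ) (hε : 0 < ε) (hε1 : ε ≤ 1) :
    ∃ C : ℝ, 0 < C ∧ ∃ P₀ : ℝ, ∀ (P : ℕ) [Fact P.Prime], P₀ ≤ P → ∀ lam : ℝ, 1 ≤ lam →
      lam ≤ Real.log (Real.log P) / C →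
      (∀ (ι : Type) (s : Finset ι) (v : ι → ZMod P),
        (∀ a : ZMod P, (({i : ι | i ∈ s ∧ v i = a}.ncard : ℕ) : ℝ) ≤
          s.card * (P : ℝ) ^ (-(1 / 2 + ε))) →
        (∀ h : ZMod P, h ≠ 0 → ‖∑ i ∈ s, (ZMod.stdAddChar (h * v i) : ℂ)‖ ≤
          s.card * (P : ℝ) ^ (-ε)) →
        Large C lam s v) ∧
      (∀ B : Finset (ZMod P), B.Nonempty → ∀ g : ZMod P → ZMod P,
        ((P : ℝ) ^ (1 / 2 + ε) ≤ B.card ∨ ((∀ b ∈ B, b ≠ 0) ∧ ∀ a, g a = 0)) →
        (({a : ZMod P | a ≠ 0 ∧ ¬ Large C lam B (fun b => a * b + g a)}.ncard : ℕ) : ℝ) ≤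
          (P : ℝ) ^ (1 + ε) / B.card) ∧
      (∀ (H : Subgroup (ZMod P)ˣ) (s : Finset (ZMod P)ˣ), (∀ h, h ∈ s ↔ h ∈ H) →
        (P : ℝ) ^ (1 / 2 + ε) ≤ s.card → ∀ x : ZMod P, x ≠ 0 →
        Large C lam s (fun h : (ZMod P)ˣ => x * (h : ZMod P))) := by
  classical
  obtain ⟨C₀, hC₀, P₀, h0⟩ := Pool.Agent.T2h81.HV.fam_nopp ε ε hε hε hε1
  obtain ⟨C₁, hC₁, P₁, h1⟩ := Pool.Agent.T2h81.HV.dilates ε hε hε1
  obtain ⟨C₂, hC₂, P₂, h2⟩ := Pool.Agent.T2h81.HV.cosets ε hε hε1
  obtain ⟨C, hC⟩ : ∃ C : ℝ, C = max C₀ (max C₁ C₂) := ⟨_, rfl⟩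
  have c0 : C₀ ≤ C := by rw [hC]; exact le_max_left _ _
  have c1 : C₁ ≤ C := by rw [hC]; exact (le_max_left _ _).trans (le_max_right _ _)
  have c2 : C₂ ≤ C := by rw [hC]; exact (le_max_right _ _).trans (le_max_right _ _)
  have hCpos : 0 < C := by linarith
  refine ⟨C, hCpos, max P₀ (max P₁ P₂), ?_⟩
  intro P hPF hP lam hlam hlamP
  have hPp : P.Prime := Fact.out
  have hPz : NeZero P := ⟨hPp.ne_zero⟩
  have hP2 : (2 : ℝ) ≤ P := by exact_mod_cast hPp.two_le
  have hlam0 : 0 ≤ lam := by linarith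
  have p0 : P₀ ≤ P := (le_max_left _ _).trans hP
  have p1 : P₁ ≤ P := (le_max_left _ _).trans ((le_max_right _ _).trans hP)
  have p2 : P₂ ≤ P := (le_max_right _ _).trans ((le_max_right _ _).trans hP)
  have e0 := exp_le_log C C₀ P lam hCpos c0 hlam0 hP2 hlamP
  have e1 := exp_le_log C C₁ P lam hCpos c1 hlam0 hP2 hlamP
  have e2 := exp_le_log C C₂ P lam hCpos c2 hlam0 hP2 hlamP
  refine ⟨?_, ?_, ?_⟩
  · intro ι s v hm hb
    refine large_of C C₀ lam c0 hlam0 s v (h0 P p0 lam hlam e0 ι s v ?_ hb)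
    intro a
    refine le_trans (le_of_eq ?_) (hm a)
    rw [← Set.ncard_coe_finset, Finset.coe_filter]
  · intro B hB g hBg
    refine le_trans ?_ (h1 P p1 lam hlam e1 B hB g hBg)
    rw [Nat.cast_le, ← Set.ncard_coe_finset]
    apply Set.ncard_le_ncard
    · rintro a ⟨ha1, ha2⟩
      rw [Finset.mem_coe, Finset.mem_filter]
      refine ⟨Finset.mem_univ _, ha1, ?_⟩
      by_contra hcon
      push Not at hcon
      exact ha2 (large_of C C₁ lam c1 hlam0 B _ hcon)
    · exact Finset.finite_toSet _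
  · intro H s hs hcard x hx
    exact large_of C C₂ lam c2 hlam0 s _ (h2 P p2 lam hlam e2 H s hs hcard x hx)

end Pool.Agent.Results.MP_5d318d_nt.VarianceOverSets
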